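import Pool.Agent.Helper63.Sey3.Goals

set_option autoImplicit false

/-!
# Project SEY3: packet SEL
-/

namespace Pool.Agent.Helper40.Sey3

open Pool.Agent.Helper41.Girth4
open Pool.Agent.Helper63.Sey3

/-- exchange the label of `m` and an independent label -/
def updEquiv {I L : Type} [DecidableEq I] (m : I) : (I → L) × L ≃ (I → L) × L where
  toFun x := (Function.update x.1 m x.2, x.1 m)
  invFun x := (Function.update x.1 m x.2, x.1 m)
  left_inv x := by simp
  right_inv x := by simp

/-- averaging over one label -/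
theorem Pr_upd {I L : Type} [Fintype I] [DecidableEq I] [Fintype L] [Nonempty L] (m : I)
    (C : (I → L) → Prop) :
    Pr C = (∑ ω : I → L, Pr (fun l : L => C (Function.update ω m l))) /
      Fintype.card (I → L) := by
  classical
  have hL : (Fintype.card L : ℝ) ≠ 0 := by exact_mod_cast Fintype.card_ne_zero
  have h1 : ∑ ω : I → L, ∑ l : L, (if C (Function.update ω m l) then (1 : ℝ) else 0) =
      Fintype.card L * ∑ ω : I → L, (if C ω then (1 : ℝ) else 0) := by
    rw [← Fintype.sum_prod_type']
    rw [Fintype.sum_equiv (updEquiv m)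
      (fun x : (I → L) × L => if C (Function.update x.1 m x.2) then (1 : ℝ) else 0)
      (fun x : (I → L) × L => if C x.1 then (1 : ℝ) else 0) (fun x => rfl)]
    rw [Fintype.sum_prod_type, Finset.mul_sum]
    refine Finset.sum_congr rfl fun x _ => ?_
    show (∑ _l : L, if C x then (1 : ℝ) else 0) = _
    rw [Finset.sum_const, Finset.card_univ, nsmul_eq_mul]
  rw [Pr_eq_sum]
  congr 1
  have h2 : ∀ ω : I → L, Pr (fun l : L => C (Function.update ω m l)) =
      (∑ l : L, (if C (Function.update ω m l) then (1 : ℝ) else 0)) / Fintype.card L := by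
    intro ω
    rw [Pr_eq_sum]
  simp_rw [h2]
  rw [← Finset.sum_div, h1, mul_div_cancel_left₀ _ hL]

theorem sel_aux {I L : Type} [Fintype I] [DecidableEq I] [Fintype L] [Nonempty L]
    (rk : I → ℕ) (hit : I → (I → L) → Prop) (ν : ℝ) (hν1 : ν ≤ 1) (n : ℕ) :
    ∀ S : Finset I, S.card = n → Set.InjOn rk (S : Set I) →
    (∀ i ∈ S, ∀ ω ω' : I → L, (∀ j, (j ∈ S → rk j ≤ rk i) → ω j = ω' j) → hit i ω → hit i ω') →
    (∀ i ∈ S, ∀ ω, Pr (fun l : L => hit i (Function.update ω i l)) ≤ ν) →
    (1 - ν) ^ n ≤ Pr (fun ω : I → L => ∀ i ∈ S, ¬ hit i ω) := by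
  classical
  induction n with
  | zero =>
    intro S hS _ _ _
    rw [Finset.card_eq_zero] at hS
    subst hS
    have : Pr (fun ω : I → L => ∀ i ∈ (∅ : Finset I), ¬ hit i ω) = 1 := by
      have h := Pr_congr (A := fun ω : I → L => ∀ i ∈ (∅ : Finset I), ¬ hit i ω)
        (B := fun _ => True) (by simp)
      rw [h, Pr_true]
    rw [this, pow_zero]
  | succ n ih =>
    intro S hS hinj hloc hpr
    have hne : S.Nonempty := by
      rw [← Finset.card_pos]
      omega
    obtain ⟨m, hm, hmax⟩ := S.exists_max_image rk hne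
    have hlt : ∀ i ∈ S.erase m, rk i < rk m := by
      intro i hi
      rw [Finset.mem_erase] at hi
      refine lt_of_le_of_ne (hmax i hi.2) ?_
      intro h
      exact hi.1 (hinj hi.2 hm h)
    have hloc' : ∀ i ∈ S.erase m, ∀ ω ω' : I → L,
        (∀ j, (j ∈ S.erase m → rk j ≤ rk i) → ω j = ω' j) → hit i ω → hit i ω' := by
      intro i hi ω ω' h
      refine hloc i (Finset.mem_of_mem_erase hi) ω ω' ?_
      intro j hj
      exact h j (fun hj' => hj (Finset.mem_of_mem_erase hj'))
    have h1 := ih (S.erase m) (by rw [Finset.card_erase_of_mem hm, hS]; rfl)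
      (hinj.mono (by intro x hx; exact Finset.mem_of_mem_erase hx)) hloc'
      (fun i hi => hpr i (Finset.mem_of_mem_erase hi))
    have hup : ∀ i ∈ S.erase m, ∀ (ω : I → L) (l : L),
        hit i (Function.update ω m l) → hit i ω := by
      intro i hi ω l h
      refine hloc i (Finset.mem_of_mem_erase hi) _ _ ?_ h
      intro j hj
      have hjm : j ≠ m := by
        rintro rfl
        exact absurd (hj hm) (not_le.2 (hlt i hi))
      rw [Function.update_of_ne hjm]
    have hcard : (0 : ℝ) < Fintype.card (I → L) := by exact_mod_cast Fintype.card_pos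
    have h2 : (1 - ν) * Pr (fun ω : I → L => ∀ i ∈ S.erase m, ¬ hit i ω) ≤
        Pr (fun ω : I → L => ∀ i ∈ S, ¬ hit i ω) := by
      rw [Pr_upd m (fun ω : I → L => ∀ i ∈ S, ¬ hit i ω), Pr_eq_sum, mul_div_assoc',
        Finset.mul_sum]
      refine div_le_div_of_nonneg_right (Finset.sum_le_sum ?_) hcard.le
      intro ω _
      by_cases hC : ∀ i ∈ S.erase m, ¬ hit i ω
      · rw [if_pos hC, mul_one]
        have h3 : Pr (fun l : L => ¬ hit m (Function.update ω m l)) ≤
            Pr (fun l : L => ∀ i ∈ S, ¬ hit i (Function.update ω m l)) := by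
          apply Pr_mono
          intro l hl i hi
          by_cases him : i = m
          · rw [him]
            exact hl
          · intro h
            exact hC i (Finset.mem_erase.2 ⟨him, hi⟩) (hup i (Finset.mem_erase.2 ⟨him, hi⟩) ω l h)
        refine le_trans ?_ h3
        rw [Pr_not]
        have := hpr m hm ω
        linarith
      · rw [if_neg hC, mul_zero]
        exact Pr_nonneg _
    calc (1 - ν) ^ (n + 1) = (1 - ν) * (1 - ν) ^ n := pow_succ' _ _
      _ ≤ (1 - ν) * Pr (fun ω : I → L => ∀ i ∈ S.erase m, ¬ hit i ω) :=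
        mul_le_mul_of_nonneg_left h1 (by linarith)
      _ ≤ _ := h2

theorem goalSEL : GoalSEL := by
  intro I L _ _ _ _ S rk hit ν d hd hinj h0 h1 hloc hpr
  refine le_trans ?_ (sel_aux rk hit ν h1 S.card S rfl hinj hloc hpr)
  exact pow_le_pow_of_le_one (by linarith) (by linarith) hd

end Pool.Agent.Helper40.Sey3
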