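import Pool.Agent.Helper63.Sey3.Goals

set_option autoImplicit false

/-!
# Project SEY3: packet SM
-/

namespace Pool.Agent.Helper40.Sey3

open Pool.Agent.Helper41.Girth4
open Pool.Agent.Helper63.Sey3

theorem Pr_fin (Z : ℕ) (hZ : 0 < Z) (c : ℕ) :
    Pr (fun a : Fin Z => (a : ℕ) = c) ≤ 1 / (Z : ℝ) := by
  classical
  rw [Pr_eq_card, Fintype.card_fin]
  have h1 : (Finset.univ.filter fun a : Fin Z => (a : ℕ) = c).card ≤ 1 := by
    rw [Finset.card_le_one]
    intro a ha b hb
    rw [Finset.mem_filter] at ha hb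
    exact Fin.ext (ha.2.trans hb.2.symm)
  have h2 : ((Finset.univ.filter fun a : Fin Z => (a : ℕ) = c).card : ℝ) ≤ 1 := by
    exact_mod_cast h1
  have h3 : (0 : ℝ) < Z := by exact_mod_cast hZ
  gcongr

theorem goalSM : GoalSEU → GoalSM := by
  classical
  intro hSEU V _ P v
  have hZ : 0 < P.Z := P.hZ
  let S : Finset V := Finset.univ.filter fun u => P.Own v u
  have hS : ∀ u, u ∈ S ↔ P.Own v u := by
    intro u
    simp [S]
  have hcard : S.card ≤ P.D := by
    refine le_trans (le_of_eq ?_) (P.dg_le v)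
    unfold Sy.dg
    rw [Nat.card_eq_fintype_card, Fintype.card_subtype]
  have hvS : v ∉ S := by
    rw [hS]
    intro h
    exact P.own_ne h rfl
  have key := hSEU V P.Lab S P.idx (fun y ω => P.rd (ω y) = P.rd (ω v)) (1 / (P.Z : ℝ)) P.D
    hcard P.hidx.injOn (by positivity) (by
      intro i hi ω ω' h hh
      have h1 := h i (fun _ => le_rfl)
      have h2 := h v (fun hv => absurd hv hvS)
      show P.rd (ω' i) = P.rd (ω' v)
      rw [← h1, ← h2]
      exact hh) (by
      intro i hi ω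
      have hne : v ≠ i := by
        rintro rfl
        exact hvS hi
      have h1 : Pr (fun l : P.Lab => P.rd (Function.update ω i l i) =
          P.rd (Function.update ω i l v)) = Pr (fun l : P.Lab => P.rd l = P.rd (ω v)) := by
        apply Pr_congr
        intro l
        rw [Function.update_self, Function.update_of_ne hne]
      have h2 : Pr (fun l : P.Lab => P.rd l = P.rd (ω v)) =
          Pr (fun a : Fin P.Z => (a : ℕ) = P.rd (ω v)) := by
        have e1 := Pr_snd (α := Bool × Fin P.q)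
          (β := (Fin P.Z × Equiv.Perm (Fin P.q)) × (Fin P.J → Fin P.L) × (Fin P.qm × Fin P.J))
          (fun b => (b.1.1 : ℕ) = P.rd (ω v))
        have e2 := Pr_fst (α := Fin P.Z × Equiv.Perm (Fin P.q))
          (β := (Fin P.J → Fin P.L) × (Fin P.qm × Fin P.J))
          (fun b => (b.1 : ℕ) = P.rd (ω v))
        have e3 := Pr_fst (α := Fin P.Z) (β := Equiv.Perm (Fin P.q))
          (fun b => (b : ℕ) = P.rd (ω v))
        exact e1.trans (e2.trans e3)
      refine (h1.trans h2).le.trans ?_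
      exact Pr_fin P.Z hZ _)
    (4 * (P.D : ℝ) / P.Z)
  have h4 : 2 * (1 / (P.Z : ℝ)) * P.D - 4 * (P.D : ℝ) / P.Z = -(2 * (P.D : ℝ) / P.Z) := by
    ring
  rw [h4] at key
  refine le_trans (Pr_mono ?_) key
  intro ω hω
  have h5 : P.sm ω v = Nat.card {i // i ∈ S ∧ P.rd (ω i) = P.rd (ω v)} := by
    unfold Sy.sm
    apply Nat.card_congr
    exact Equiv.subtypeEquivRight (fun u => by rw [hS])
  show 4 * (P.D : ℝ) / P.Z ≤ (Nat.card {i // i ∈ S ∧ P.rd (ω i) = P.rd (ω v)} : ℝ)
  rw [← h5]
  exact hω.le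

end Pool.Agent.Helper40.Sey3
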